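import Pool.Agent.H.MP_1bffc6_nt.A

open Polynomial Filter Topology

namespace Pool.Agent.Results.MP_1bffc6_nt.Farey

open Pool.Agent.H.MP_1bffc6_nt

theorem result (a₁ a₂ b₁ b₂ : ℤ) (hb₁ : 2 ≤ b₁) (hb₂ : 2 ≤ b₂)
    (hdet : |a₁ * b₂ - a₂ * b₁| = 1) (hlt : (a₁ : ℝ) / b₁ < (a₂ : ℝ) / b₂) :
    Tendsto
      (fun n : ℕ =>
        (sInf {y : ℝ | ∃ P : ℤ[X], P.Monic ∧ P.natDegree = n ∧
          y = sSup ((fun x : ℝ => |aeval x P|) '' Set.Icc ((a₁ : ℝ) / b₁) ((a₂ : ℝ) / b₂))})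
          ^ ((1 : ℝ) / (n : ℝ)))
      atTop (𝓝 (max (1 / (b₁ : ℝ)) (1 / (b₂ : ℝ)))) := by
  have p₁ : (0 : ℝ) < b₁ := by exact_mod_cast (by omega : (0 : ℤ) < b₁)
  have p₂ : (0 : ℝ) < b₂ := by exact_mod_cast (by omega : (0 : ℤ) < b₂)
  have q₁ : (2 : ℝ) ≤ b₁ := by exact_mod_cast hb₁
  have q₂ : (2 : ℝ) ≤ b₂ := by exact_mod_cast hb₂
  have hd : a₂ * b₁ - a₁ * b₂ = 1 := by
    rw [div_lt_div_iff₀ p₁ p₂] at hlt
    have h : a₁ * b₂ < a₂ * b₁ := by exact_mod_cast hlt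
    rw [abs_of_neg (by omega)] at hdet
    omega
  have hdR : (a₂ : ℝ) * b₁ - a₁ * b₂ = 1 := by exact_mod_cast hd
  set M : ℝ := max (1 / (b₁ : ℝ)) (1 / (b₂ : ℝ)) with hM
  have hM₁ : 1 / (b₁ : ℝ) ≤ M := le_max_left _ _
  have hM₂ : 1 / (b₂ : ℝ) ≤ M := le_max_right _ _
  have hM0 : 0 < M := lt_of_lt_of_le (by positivity) hM₁
  set I : Set ℝ := Set.Icc ((a₁ : ℝ) / b₁) ((a₂ : ℝ) / b₂) with hI
  have hl : (a₁ : ℝ) / b₁ ∈ I := ⟨le_rfl, hlt.le⟩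
  have hr : (a₂ : ℝ) / b₂ ∈ I := ⟨hlt.le, le_rfl⟩
  have hbdd : ∀ P : ℤ[X], BddAbove ((fun x : ℝ => |aeval x P|) '' I) := fun P =>
    (isCompact_Icc.image (by fun_prop)).bddAbove
  have hlow : ∀ n : ℕ, ∀ y ∈ {y : ℝ | ∃ P : ℤ[X], P.Monic ∧ P.natDegree = n ∧
      y = sSup ((fun x : ℝ => |aeval x P|) '' I)}, M ^ n ≤ y := by
    rintro n y ⟨P, hP, hn, rfl⟩
    have c₁ : IsCoprime a₁ b₁ := ⟨-b₂, a₂, by linarith⟩
    have c₂ : IsCoprime a₂ b₂ := ⟨b₁, -a₁, by linarith⟩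
    have l₁ := (lower a₁ b₁ hb₁ c₁ P hP).trans (le_csSup (hbdd P) ⟨_, hl, rfl⟩)
    have l₂ := (lower a₂ b₂ hb₂ c₂ P hP).trans (le_csSup (hbdd P) ⟨_, hr, rfl⟩)
    rw [hn] at l₁ l₂
    rcases max_cases (1 / (b₁ : ℝ)) (1 / (b₂ : ℝ)) with h | h
    · rw [hM, h.1]
      exact l₁
    · rw [hM, h.1]
      exact l₂
  have hux : ∀ x ∈ I, 0 ≤ b₁ * x - a₁ ∧ b₁ * x - a₁ ≤ 1 / (b₂ : ℝ) ∧
      0 ≤ a₂ - b₂ * x ∧ a₂ - b₂ * x ≤ 1 / (b₁ : ℝ) := by
    rintro x ⟨h1, h2⟩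
    rw [div_le_iff₀ p₁] at h1
    rw [le_div_iff₀ p₂] at h2
    refine ⟨by linarith, ?_, by linarith, ?_⟩
    · rw [le_div_iff₀ p₂]
      nlinarith
    · rw [le_div_iff₀ p₁]
      nlinarith
  have hup : ∀ N : ℕ, ∃ P : ℤ[X], P.Monic ∧ P.natDegree = N + 1 ∧
      sSup ((fun x : ℝ => |aeval x P|) '' I) ≤ M ^ (N + 1) * (1 + ((N + 1 : ℕ) : ℝ) / M) := by
    intro N
    have hRdeg : ((X : ℝ[X]) ^ (N + 1) - (X - C ((a₁ : ℝ) / b₁)) ^ (N + 1)).natDegree ≤ N := by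
      have m₁ : ((X : ℝ[X]) ^ (N + 1)).Monic := monic_X_pow _
      have m₂ : ((X - C ((a₁ : ℝ) / b₁)) ^ (N + 1)).Monic := (monic_X_sub_C _).pow _
      have d₂ : ((X - C ((a₁ : ℝ) / b₁)) ^ (N + 1)).degree = ((N + 1 : ℕ) : WithBot ℕ) := by
        rw [degree_pow, degree_X_sub_C]
        simp
      have := degree_sub_lt_left (q := (X - C ((a₁ : ℝ) / b₁)) ^ (N + 1))
        (by rw [degree_X_pow, d₂]) m₁.ne_zero (by rw [m₁.leadingCoeff, m₂.leadingCoeff])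
      rw [degree_X_pow] at this
      refine natDegree_le_iff_degree_le.mpr ?_
      exact Order.le_of_lt_succ this
    obtain ⟨Q, hQ, hQI⟩ := approx (C b₁ * X - C a₁) (C a₂ - C b₂ * X)
      (by compute_degree) (by compute_degree) ((a₁ : ℝ) / b₁) b₁ p₁.ne'
      (by
        rw [mul_sub, ← C_mul, mul_div_cancel₀ _ p₁.ne']
        simp)
      (by
        simp only [map_sub, map_mul, aeval_X, eq_intCast, map_intCast]
        have : (a₂ : ℝ) - b₂ * (a₁ / b₁) = 1 / b₁ := by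
          field_simp
          linarith
        rw [this]
        positivity)
      I M hM0.le
      (by
        intro x hx
        simp only [map_sub, map_mul, aeval_X, eq_intCast, map_intCast]
        rw [abs_of_nonneg (hux x hx).1]
        exact (hux x hx).2.1.trans hM₂)
      (by
        intro x hx
        simp only [map_sub, map_mul, aeval_X, eq_intCast, map_intCast]
        rw [abs_of_nonneg (hux x hx).2.2.1]
        exact (hux x hx).2.2.2.trans hM₁)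
      N _ hRdeg
    have hQd : Q.degree < ((N + 1 : ℕ) : WithBot ℕ) :=
      lt_of_le_of_lt (degree_le_of_natDegree_le hQ) (by exact_mod_cast Nat.lt_succ_self N)
    refine ⟨X ^ (N + 1) - Q, monic_X_pow_sub hQd, ?_, ?_⟩
    · rw [natDegree_sub_eq_left_of_natDegree_lt (by rw [natDegree_X_pow]; omega), natDegree_X_pow]
    · refine csSup_le ⟨_, _, hl, rfl⟩ ?_
      rintro _ ⟨x, hx, rfl⟩
      have h1 := hQI x hx
      simp only [eval_sub, eval_pow, eval_X, eval_C] at h1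
      have h2 : |x - (a₁ : ℝ) / b₁| ≤ M := by
        have e : x - (a₁ : ℝ) / b₁ = (b₁ * x - a₁) / b₁ := by field_simp
        have h3 := hux x hx
        rw [e, abs_of_nonneg (div_nonneg h3.1 p₁.le), div_le_iff₀ p₁]
        nlinarith [h3.2.1]
      have h3 : |(x - (a₁ : ℝ) / b₁) ^ (N + 1)| ≤ M ^ (N + 1) := by
        rw [abs_pow]
        exact pow_le_pow_left₀ (abs_nonneg _) h2 _
      have e : aeval x ((X : ℤ[X]) ^ (N + 1) - Q) = (x - (a₁ : ℝ) / b₁) ^ (N + 1) +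
          (x ^ (N + 1) - (x - (a₁ : ℝ) / b₁) ^ (N + 1) - aeval x Q) := by
        simp only [map_sub, map_pow, aeval_X]
        ring
      show |aeval x ((X : ℤ[X]) ^ (N + 1) - Q)| ≤ _
      rw [e]
      refine (abs_add_le _ _).trans ((add_le_add h3 h1).trans (le_of_eq ?_))
      push_cast
      field_simp
      ring
  refine tendsto_of_tendsto_of_tendsto_of_le_of_le' tendsto_const_nhds (lim M hM0) ?_ ?_
  · filter_upwards [eventually_gt_atTop 0] with n hn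
    obtain ⟨N, rfl⟩ : ∃ N, n = N + 1 := ⟨n - 1, by omega⟩
    obtain ⟨P, hP, hn, -⟩ := hup N
    have h := le_csInf (by exact ⟨_, P, hP, hn, rfl⟩) (hlow (N + 1))
    calc M = (M ^ (N + 1)) ^ ((1 : ℝ) / ((N + 1 : ℕ) : ℝ)) := by
          rw [one_div, Real.pow_rpow_inv_natCast hM0.le (by omega)]
      _ ≤ _ := Real.rpow_le_rpow (by positivity) h (by positivity)
  · filter_upwards [eventually_gt_atTop 0] with n hn
    obtain ⟨N, rfl⟩ : ∃ N, n = N + 1 := ⟨n - 1, by omega⟩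
    obtain ⟨P, hP, hn, hs⟩ := hup N
    have h0 := le_csInf (by exact ⟨_, P, hP, hn, rfl⟩) (hlow (N + 1))
    have h := (csInf_le ⟨_, hlow (N + 1)⟩ ⟨P, hP, hn, rfl⟩).trans hs
    exact Real.rpow_le_rpow (le_trans (by positivity) h0) h (by positivity)

end Pool.Agent.Results.MP_1bffc6_nt.Farey
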